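import Pool.Agent.helper94.MA.Spec
import Pool.Agent.helper26.MM.SUMR

/-!
# MA.SUMR and MA.SQR: real bookkeeping
-/

set_option autoImplicit false

open Complex Metric Set Filter Topology

noncomputable section

namespace MA

theorem SUMR : SUMR_stmt := by
  intro C A θ ε hC hA hθ hθ1 hε
  exact MMR.SUMR94 C A θ ε hC hA hθ hθ1 hε

theorem SQR : SQR_stmt := by
  intro C hC
  have h1 : Summable fun n : ℕ => (n : ℝ) ^ 1 * Real.exp (-(1 : ℝ) * n) :=
    Real.summable_pow_mul_exp_neg_nat_mul 1 one_pos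
  have h1' : Summable fun n : ℕ => (n : ℝ) ^ 0 * Real.exp (-(1 : ℝ) * n) :=
    Real.summable_pow_mul_exp_neg_nat_mul 0 one_pos
  have h2 : Summable fun j : ℕ => C * Real.exp 1 * (((j : ℝ) + 2) * Real.exp (-(j : ℝ))) := by
    have h3 := (h1.add (h1'.mul_left 2)).mul_left (C * Real.exp 1)
    refine h3.congr fun j => ?_
    rw [pow_one, pow_zero, neg_one_mul]
    ring
  have hpos : ∀ j : ℕ, 0 ≤ C * Real.exp 1 * (((j : ℝ) + 2) * Real.exp (-(j : ℝ))) := by
    intro j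
    positivity
  refine ⟨∑' j : ℕ, C * Real.exp 1 * (((j : ℝ) + 2) * Real.exp (-(j : ℝ))) + 1, ?_, ?_⟩
  · have h3 : 0 ≤ ∑' j : ℕ, C * Real.exp 1 * (((j : ℝ) + 2) * Real.exp (-(j : ℝ))) := tsum_nonneg hpos
    linarith
  intro ι g hg hc
  let cl : ℕ → ℕ := fun T => ⌊-Real.log (g T)⌋₊
  have hcl : ∀ T ∈ ι, Real.exp (-((cl T : ℝ) + 1)) ≤ g T ∧ g T ≤ Real.exp (-(cl T : ℝ)) := by
    intro T hT
    have hgT := (hg T hT).1
    have h0' : (0 : ℝ) ≤ -Real.log (g T) := by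
      have := Real.log_nonpos hgT.le (hg T hT).2
      linarith
    refine ⟨?_, ?_⟩
    · rw [← Real.le_log_iff_exp_le hgT]
      have h2 := Nat.lt_floor_add_one (-Real.log (g T))
      have h3 : (cl T : ℝ) = (⌊-Real.log (g T)⌋₊ : ℝ) := rfl
      rw [h3]
      linarith
    · rw [← Real.log_le_iff_le_exp hgT]
      have h2 := Nat.floor_le h0'
      have h3 : (cl T : ℝ) = (⌊-Real.log (g T)⌋₊ : ℝ) := rfl
      rw [h3]
      linarith
  have key : ∀ j : ℕ, ∑ T ∈ ι.filter (fun T => cl T = j), g T ^ 2 ≤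
      C * Real.exp 1 * (((j : ℝ) + 2) * Real.exp (-(j : ℝ))) := by
    intro j
    have hj0 : (0 : ℝ) ≤ j := Nat.cast_nonneg j
    set γ : ℝ := Real.exp (-((j : ℝ) + 1)) with hγdef
    have hγpos : 0 < γ := Real.exp_pos _
    have hγ1 : γ ≤ 1 := by
      rw [hγdef, Real.exp_le_one_iff]; linarith
    have hlog : Real.log (1 / γ) = (j : ℝ) + 1 := by
      rw [one_div, Real.log_inv, hγdef, Real.log_exp]; ring
    have hγi : γ⁻¹ = Real.exp ((j : ℝ) + 1) := by
      rw [hγdef, ← Real.exp_neg]; congr 1; ring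
    have hcA := hc γ hγpos hγ1
    rw [hlog, hγi] at hcA
    have h3 : ∀ T ∈ ι.filter (fun T => cl T = j), g T ^ 2 ≤ Real.exp (-(j : ℝ)) ^ 2 := by
      intro T hT
      obtain ⟨hT1, hT2⟩ := Finset.mem_filter.1 hT
      have h4 := (hcl T hT1).2
      rw [hT2] at h4
      exact pow_le_pow_left₀ (hg T hT1).1.le h4 2
    have h4 : ((ι.filter (fun T => cl T = j)).card : ℝ) ≤ C * Real.exp ((j : ℝ) + 1) * (1 + ((j : ℝ) + 1)) := by
      refine le_trans ?_ hcA
      have : ι.filter (fun T => cl T = j) ⊆ ι.filter (fun T => γ ≤ g T) := by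
        intro T hT
        obtain ⟨hT1, hT2⟩ := Finset.mem_filter.1 hT
        have h5 := (hcl T hT1).1
        rw [hT2] at h5
        exact Finset.mem_filter.2 ⟨hT1, h5⟩
      exact_mod_cast Finset.card_le_card this
    have h5 := Finset.sum_le_card_nsmul _ _ _ h3
    rw [nsmul_eq_mul] at h5
    refine h5.trans ((mul_le_mul_of_nonneg_right h4 (by positivity)).trans (le_of_eq ?_))
    have h6 : Real.exp ((j : ℝ) + 1) * Real.exp (-(j : ℝ)) ^ 2 = Real.exp 1 * Real.exp (-(j : ℝ)) := by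
      rw [← Real.exp_nat_mul, ← Real.exp_add, ← Real.exp_add]
      congr 1
      push_cast
      ring
    calc C * Real.exp ((j : ℝ) + 1) * (1 + ((j : ℝ) + 1)) * Real.exp (-(j : ℝ)) ^ 2
        = C * (1 + ((j : ℝ) + 1)) * (Real.exp ((j : ℝ) + 1) * Real.exp (-(j : ℝ)) ^ 2) := by ring
      _ = _ := by rw [h6]; ring
  have hmaps : ∀ T ∈ ι, cl T ∈ ι.image cl := fun T hT => Finset.mem_image_of_mem cl hT
  rw [← Finset.sum_fiberwise_of_maps_to hmaps]
  have h7 : ∑ j ∈ ι.image cl, ∑ T ∈ ι.filter (fun T => cl T = j), g T ^ 2 ≤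
      ∑ j ∈ ι.image cl, C * Real.exp 1 * (((j : ℝ) + 2) * Real.exp (-(j : ℝ))) :=
    Finset.sum_le_sum fun j _ => key j
  have h8 := h2.sum_le_tsum (ι.image cl) fun j _ => hpos j
  linarith

end MA
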